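import Pool.Agent.H124Z.Orb.Main

set_option autoImplicit false

namespace Pool.Agent.Results.MP_1da757_ag.ANoJordan

open Pool.Agent.H124Z.Orb

/-- For every `c` there is an lc Fano pair on the complex projective plane whose orbifold
fundamental group has no abelian subgroup (normal or not, of any rank) of index at most `c`. -/
theorem result (c : ℕ) : ∃ D : PlaneDiv, D.IsLC ∧ D.IsFano ∧ Nonempty D.U ∧
    ∀ (u : D.U) (A : Subgroup (D.pi1orb u)), (∀ x ∈ A, ∀ y ∈ A, x * y = y * x) →
      A.index = 0 ∨ c < A.index :=
  main c

end Pool.Agent.Results.MP_1da757_ag.ANoJordan
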